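import Mathlib

/-!
# Labelled edges of a uniform hypergraph

Tools for the Kalai conjecture on tight trees: sums over labelled edges
(`lab`), the exchange (stationarity) identity, the symmetry in the labels, and the
link with the shadow.
-/

set_option autoImplicit false

open Finset

namespace Pool.Agent.TH528.Kalai

variable {V : Type*} [Fintype V] [DecidableEq V]
variable {ι : Type*} [Fintype ι] [DecidableEq ι]

/-- Labelled edges: maps `ι → V` whose range is an edge. -/
def lab (ι : Type*) [Fintype ι] [DecidableEq ι] (H : Finset (Finset V)) : Finset (ι → V) :=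
  univ.filter (fun f => univ.image f ∈ H)

/-- The vertices that may replace the vertex with label `m` of a labelled edge. -/
def cls (H : Finset (Finset V)) (f : ι → V) (m : ι) : Finset V :=
  univ.filter (fun w => Function.update f m w ∈ lab ι H)

/-- number of edges above a set -/
def dg (H : Finset (Finset V)) (S : Finset V) : ℕ := (H.filter (fun h => S ⊆ h)).card

variable {H : Finset (Finset V)}

theorem mem_lab {f : ι → V} : f ∈ lab ι H ↔ univ.image f ∈ H := by
  simp [lab]

theorem mem_cls {f : ι → V} {m : ι} {w : V} :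
    w ∈ cls H f m ↔ Function.update f m w ∈ lab ι H := by
  simp [cls]

/-- the facet missing the label `j` -/
def fac (g : ι → V) (j : ι) : Finset V := (univ.erase j).image g

omit [Fintype V] in
theorem image_update (g : ι → V) (j : ι) (w : V) :
    univ.image (Function.update g j w) = insert w (fac g j) := by
  ext x
  simp only [fac, Finset.mem_image, Finset.mem_univ, true_and, Finset.mem_insert,
    Finset.mem_erase, and_true]
  constructor
  · rintro ⟨a, ha⟩
    by_cases haj : a = j
    · subst haj
      left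
      simpa using ha.symm
    · right
      rw [Function.update_of_ne haj] at ha
      exact ⟨a, haj, ha⟩
  · rintro (h | ⟨a, haj, ha⟩)
    · exact ⟨j, by simp [h]⟩
    · exact ⟨a, by rw [Function.update_of_ne haj]; exact ha⟩

theorem mem_cls_iff {f : ι → V} {m : ι} {w : V} :
    w ∈ cls H f m ↔ insert w (fac f m) ∈ H := by
  rw [mem_cls, mem_lab, image_update]

omit [Fintype V] in
theorem fac_card_lt (g : ι → V) (j : ι) : (fac g j).card < Fintype.card ι := by
  unfold fac
  refine lt_of_le_of_lt Finset.card_image_le ?_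
  rw [Finset.card_erase_of_mem (Finset.mem_univ _), Finset.card_univ]
  have : 0 < Fintype.card ι := Fintype.card_pos_iff.mpr ⟨j⟩
  omega

theorem notMem_fac (hH : ∀ h ∈ H, h.card = Fintype.card ι) {f : ι → V} {m : ι} {w : V}
    (hw : w ∈ cls H f m) : w ∉ fac f m := by
  intro h
  rw [mem_cls_iff, Finset.insert_eq_of_mem h] at hw
  have h1 := hH _ hw
  have h2 := fac_card_lt f m
  omega

theorem inj_of_mem_lab (hH : ∀ h ∈ H, h.card = Fintype.card ι) {f : ι → V}
    (hf : f ∈ lab ι H) : Function.Injective f := by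
  rw [mem_lab] at hf
  have h1 := hH _ hf
  rw [← Finset.card_univ, Finset.card_image_iff] at h1
  intro a b hab
  exact h1 (by simp) (by simp) hab

theorem self_mem_cls {f : ι → V} (hf : f ∈ lab ι H) (m : ι) : f m ∈ cls H f m := by
  rw [mem_cls, Function.update_eq_self]
  exact hf

theorem cls_update (f : ι → V) (m : ι) (w : V) :
    cls H (Function.update f m w) m = cls H f m := by
  ext x
  rw [mem_cls, mem_cls, Function.update_idem]

theorem cls_card_pos {f : ι → V} (hf : f ∈ lab ι H) (m : ι) : 0 < (cls H f m).card :=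
  Finset.card_pos.mpr ⟨_, self_mem_cls hf m⟩

/-- Exchange identity. -/
theorem exchange (m : ι) (G : (ι → V) → ℝ) :
    ∑ f ∈ lab ι H, (1 / ((cls H f m).card : ℝ)) *
      ∑ w ∈ cls H f m, G (Function.update f m w) = ∑ f ∈ lab ι H, G f := by
  have h1 : ∑ f ∈ lab ι H, (1 / ((cls H f m).card : ℝ)) *
      ∑ w ∈ cls H f m, G (Function.update f m w)
      = ∑ p ∈ (lab ι H).sigma (fun f => cls H f m),
        (1 / ((cls H p.1 m).card : ℝ)) * G (Function.update p.1 m p.2) := by
    rw [Finset.sum_sigma]
    refine Finset.sum_congr rfl fun f _ => ?_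
    rw [Finset.mul_sum]
  have h2 : ∑ f ∈ lab ι H, G f
      = ∑ p ∈ (lab ι H).sigma (fun f => cls H f m),
        (1 / ((cls H p.1 m).card : ℝ)) * G p.1 := by
    rw [Finset.sum_sigma]
    refine Finset.sum_congr rfl fun f hf => ?_
    simp only [Finset.sum_const, nsmul_eq_mul]
    have : ((cls H f m).card : ℝ) ≠ 0 := by
      have := cls_card_pos hf m
      positivity
    field_simp
  rw [h1, h2]
  refine Finset.sum_bij' (fun p _ => (⟨Function.update p.1 m p.2, p.1 m⟩ : Σ _ : (ι → V), V))
    (fun p _ => (⟨Function.update p.1 m p.2, p.1 m⟩ : Σ _ : (ι → V), V)) ?_ ?_ ?_ ?_ ?_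
  · rintro ⟨f, w⟩ hp
    simp only [Finset.mem_sigma] at hp ⊢
    refine ⟨mem_cls.mp hp.2, ?_⟩
    rw [cls_update]
    exact self_mem_cls hp.1 m
  · rintro ⟨f, w⟩ hp
    simp only [Finset.mem_sigma] at hp ⊢
    refine ⟨mem_cls.mp hp.2, ?_⟩
    rw [cls_update]
    exact self_mem_cls hp.1 m
  · rintro ⟨f, w⟩ hp
    simp [Function.update_idem]
  · rintro ⟨f, w⟩ hp
    simp [Function.update_idem]
  · rintro ⟨f, w⟩ hp
    simp only [cls_update]

/-- Symmetry in the labels. -/
theorem sum_comp_perm (σ : Equiv.Perm ι) (G : (ι → V) → ℝ) :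
    ∑ f ∈ lab ι H, G (f ∘ σ) = ∑ f ∈ lab ι H, G f := by
  have himg : ∀ (f : ι → V) (τ : Equiv.Perm ι), univ.image (f ∘ τ) = univ.image f := by
    intro f τ
    ext x
    simp only [Finset.mem_image, Finset.mem_univ, true_and, Function.comp]
    constructor
    · rintro ⟨a, ha⟩
      exact ⟨τ a, ha⟩
    · rintro ⟨a, ha⟩
      exact ⟨τ.symm a, by simpa using ha⟩
  refine Finset.sum_bij' (fun f _ => f ∘ σ) (fun f _ => f ∘ σ.symm) ?_ ?_ ?_ ?_ ?_
  · intro f hf
    rw [mem_lab] at hf ⊢
    rwa [himg]
  · intro f hf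
    rw [mem_lab] at hf ⊢
    rwa [himg]
  · intro f _
    ext x; simp
  · intro f _
    ext x; simp
  · intro f _
    rfl

theorem cls_comp_perm (σ : Equiv.Perm ι) (f : ι → V) (j : ι) :
    cls H (f ∘ σ) j = cls H f (σ j) := by
  ext w
  rw [mem_cls, mem_cls, mem_lab, mem_lab]
  have h1 : Function.update (f ∘ σ) j w = (Function.update f (σ j) w) ∘ σ := by
    ext x
    by_cases hx : x = j
    · subst hx; simp
    · have : σ x ≠ σ j := fun h => hx (σ.injective h)
      simp [Function.update_of_ne hx, Function.update_of_ne this]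
  rw [h1]
  have : univ.image ((Function.update f (σ j) w) ∘ σ) = univ.image (Function.update f (σ j) w) := by
    ext x
    simp only [Finset.mem_image, Finset.mem_univ, true_and, Function.comp]
    constructor
    · rintro ⟨a, ha⟩
      exact ⟨σ a, ha⟩
    · rintro ⟨a, ha⟩
      exact ⟨σ.symm a, by simpa using ha⟩
  rw [this]

theorem sum_deg_eq (F : ℕ → ℝ) (i j : ι) :
    ∑ f ∈ lab ι H, F (cls H f i).card = ∑ f ∈ lab ι H, F (cls H f j).card := by
  rw [← sum_comp_perm (Equiv.swap i j)]
  refine Finset.sum_congr rfl fun f _ => ?_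
  rw [cls_comp_perm]
  simp

end Pool.Agent.TH528.Kalai
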