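import Mathlib

set_option autoImplicit false

open Finset

namespace Pool.Agent.TH528.Kalai

variable {V : Type*} [Fintype V] [DecidableEq V]

/-- injective maps `Fin k → V` with values in `N` -/
def inj (k : ℕ) (N : Finset V) : Finset (Fin k → V) :=
  univ.filter (fun x => Function.Injective x ∧ ∀ j, x j ∈ N)

theorem mem_inj {k : ℕ} {N : Finset V} {x : Fin k → V} :
    x ∈ inj k N ↔ Function.Injective x ∧ ∀ j, x j ∈ N := by
  simp [inj]

theorem sum_inj_succ (k : ℕ) (N : Finset V) (G : (Fin (k + 1) → V) → ℝ) :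
    ∑ x ∈ inj (k + 1) N, G x
      = ∑ w ∈ N, ∑ y ∈ inj k (N.erase w), G (Fin.cons w y : Fin (k + 1) → V) := by
  rw [Finset.sum_sigma']
  refine Finset.sum_bij' (fun x _ => (⟨x 0, Fin.tail x⟩ : Σ _ : V, (Fin k → V)))
    (fun p _ => (Fin.cons p.1 p.2 : Fin (k + 1) → V)) ?_ ?_ ?_ ?_ ?_
  · intro x hx
    rw [mem_inj] at hx
    rw [Finset.mem_sigma, mem_inj]
    refine ⟨hx.2 0, ?_, ?_⟩
    · intro a b hab
      have := hx.1 hab
      exact Fin.succ_injective _ this
    · intro j
      refine Finset.mem_erase.mpr ⟨?_, hx.2 _⟩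
      intro h
      have := hx.1 h
      exact (Fin.succ_ne_zero j) this
  · rintro ⟨w, y⟩ hp
    rw [Finset.mem_sigma, mem_inj] at hp
    rw [mem_inj]
    simp only at hp ⊢
    refine ⟨?_, ?_⟩
    · rw [Fin.cons_injective_iff]
      refine ⟨?_, hp.2.1⟩
      rintro ⟨j, hj⟩
      exact (Finset.mem_erase.mp (hp.2.2 j)).1 hj
    · intro j
      refine Fin.cases ?_ (fun i => ?_) j
      · simpa using hp.1
      · simpa using (Finset.mem_erase.mp (hp.2.2 i)).2
  · intro x _
    simp
  · rintro ⟨w, y⟩ _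
    simp
  · intro x _
    simp

theorem card_inj (k : ℕ) : ∀ N : Finset V, ((inj k N).card : ℝ) = (N.card.descFactorial k : ℝ) := by
  induction k with
  | zero =>
    intro N
    have : inj 0 N = {fun i => i.elim0} := by
      ext x
      rw [mem_inj]
      constructor
      · intro _
        rw [Finset.mem_singleton]
        exact Subsingleton.elim _ _
      · intro _
        exact ⟨fun a => a.elim0, fun j => j.elim0⟩
    rw [this]
    simp
  | succ k ih =>
    intro N
    have h1 : ((inj (k + 1) N).card : ℝ) = ∑ x ∈ inj (k + 1) N, (1 : ℝ) := by simp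
    rw [h1, sum_inj_succ]
    have h2 : ∀ w ∈ N, ∑ y ∈ inj k (N.erase w), (1 : ℝ) = ((N.card - 1).descFactorial k : ℝ) := by
      intro w hw
      have := ih (N.erase w)
      rw [Finset.card_erase_of_mem hw] at this
      simpa using this
    rw [Finset.sum_congr rfl h2, Finset.sum_const, nsmul_eq_mul]
    rcases Nat.eq_zero_or_pos N.card with h | h
    · rw [h]; simp
    · obtain ⟨n, hn⟩ : ∃ n, N.card = n + 1 := ⟨N.card - 1, by omega⟩
      rw [hn]
      simp only [Nat.add_sub_cancel]
      rw [Nat.succ_descFactorial_succ]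
      push_cast
      ring

omit [Fintype V] in
theorem card_filter_cons {k : ℕ} (w : V) (y : Fin k → V) (M : Finset V) :
    ((univ : Finset (Fin (k + 1))).filter (fun j => (Fin.cons w y : Fin (k + 1) → V) j ∈ M)).card
      = (if w ∈ M then 1 else 0) + ((univ : Finset (Fin k)).filter (fun j => y j ∈ M)).card := by
  rw [Finset.card_filter, Finset.card_filter, Fin.sum_univ_succ]
  simp

theorem sum_inj_bound (k : ℕ) : ∀ (N M : Finset V) (D : ℕ), (M ∩ N).card < D →
    ∑ y ∈ inj k N, 1 / ((D : ℝ) - ((univ.filter (fun j => y j ∈ M)).card : ℝ))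
      ≤ (1 / (D : ℝ)) * ((N.card + 1).descFactorial k : ℝ) := by
  induction k with
  | zero =>
    intro N M D _
    have : inj 0 N = {fun i => i.elim0} := by
      ext x
      rw [mem_inj]
      constructor
      · intro _
        rw [Finset.mem_singleton]
        exact Subsingleton.elim _ _
      · intro _
        exact ⟨fun a => a.elim0, fun j => j.elim0⟩
    rw [this]
    simp
  | succ k ih =>
    intro N M D hD
    rw [sum_inj_succ]
    have h1 : ∀ w ∈ N, ∑ y ∈ inj k (N.erase w),
        1 / ((D : ℝ) - ((univ.filter (fun j => (Fin.cons w y : Fin (k + 1) → V) j ∈ M)).card : ℝ))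
        ≤ (if w ∈ M then 1 / ((D : ℝ) - 1) else 1 / (D : ℝ)) * (N.card.descFactorial k : ℝ) := by
      intro w hw
      have hcard : (N.erase w).card + 1 = N.card := by
        rw [Finset.card_erase_of_mem hw]
        have := Finset.card_pos.mpr ⟨w, hw⟩
        omega
      have hinter : M ∩ (N.erase w) = (M ∩ N).erase w := by
        ext a; simp only [Finset.mem_inter, Finset.mem_erase]; tauto
      by_cases hwM : w ∈ M
      · have hmem : w ∈ M ∩ N := Finset.mem_inter.mpr ⟨hwM, hw⟩
        have hpos := Finset.card_pos.mpr ⟨w, hmem⟩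
        have h2 := ih (N.erase w) M (D - 1) (by
          rw [hinter, Finset.card_erase_of_mem hmem]; omega)
        rw [hcard] at h2
        rw [if_pos hwM]
        have hD1 : ((D - 1 : ℕ) : ℝ) = (D : ℝ) - 1 := by
          rw [Nat.cast_sub (by omega)]; simp
        rw [hD1] at h2
        refine le_trans (le_of_eq ?_) h2
        refine Finset.sum_congr rfl fun y _ => ?_
        rw [card_filter_cons, if_pos hwM]
        push_cast
        congr 1
        ring
      · have h2 := ih (N.erase w) M D (by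
          rw [hinter]
          exact lt_of_le_of_lt (Finset.card_le_card (Finset.erase_subset _ _)) hD)
        rw [hcard] at h2
        rw [if_neg hwM]
        refine le_trans (le_of_eq ?_) h2
        refine Finset.sum_congr rfl fun y _ => ?_
        rw [card_filter_cons, if_neg hwM]
        push_cast
        congr 1
        ring
    refine le_trans (Finset.sum_le_sum h1) ?_
    rw [← Finset.sum_mul, Nat.succ_descFactorial_succ, Finset.sum_ite, Finset.sum_const,
      Finset.sum_const, nsmul_eq_mul, nsmul_eq_mul]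
    have hg : (N.filter (fun w => w ∈ M)).card = (M ∩ N).card := by
      congr 1; ext a; simp only [Finset.mem_filter, Finset.mem_inter]; tauto
    have hsum : (N.filter (fun w => w ∈ M)).card + (N.filter (fun w => ¬ w ∈ M)).card = N.card :=
      Finset.card_filter_add_card_filter_not _
    set g := (N.filter (fun w => w ∈ M)).card with hgdef
    set g' := (N.filter (fun w => ¬ w ∈ M)).card with hg'def
    have hgD : g + 1 ≤ D := by omega
    have key : (g : ℝ) * (1 / ((D : ℝ) - 1)) + (g' : ℝ) * (1 / (D : ℝ))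
        ≤ (1 / (D : ℝ)) * ((N.card : ℝ) + 1) := by
      have hDpos : (0 : ℝ) < D := by
        have : 0 < D := by omega
        exact_mod_cast this
      have hgr : (g : ℝ) + 1 ≤ D := by exact_mod_cast hgD
      have hsr : (g : ℝ) + g' = N.card := by exact_mod_cast hsum
      rcases Nat.eq_zero_or_pos g with h0 | h0
      · rw [h0] at hsr ⊢
        simp only [Nat.cast_zero, zero_add, zero_mul] at hsr ⊢
        rw [hsr]
        rw [mul_comm]
        apply mul_le_mul_of_nonneg_left _ (by positivity)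
        linarith
      · have hg0 : (1 : ℝ) ≤ g := by exact_mod_cast h0
        have hD1 : (0 : ℝ) < (D : ℝ) - 1 := by linarith
        rw [← hsr]
        have : (g : ℝ) * (1 / ((D : ℝ) - 1)) ≤ (1 / (D : ℝ)) * ((g : ℝ) + 1) := by
          rw [mul_one_div, one_div_mul_eq_div, div_le_div_iff₀ hD1 hDpos]
          nlinarith
        have h3 : (1 / (D : ℝ)) * ((g : ℝ) + g' + 1)
            = (1 / (D : ℝ)) * ((g : ℝ) + 1) + g' * (1 / (D : ℝ)) := by ring
        rw [h3]
        linarith
    calc ((g : ℝ) * (1 / ((D : ℝ) - 1)) + (g' : ℝ) * (1 / (D : ℝ))) * (N.card.descFactorial k : ℝ)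
        ≤ ((1 / (D : ℝ)) * ((N.card : ℝ) + 1)) * (N.card.descFactorial k : ℝ) :=
          mul_le_mul_of_nonneg_right key (by positivity)
      _ = (1 / (D : ℝ)) * (((N.card + 1) * N.card.descFactorial k : ℕ) : ℝ) := by
          push_cast; ring

theorem sum_inj_perm {k : ℕ} (σ : Equiv.Perm (Fin k)) (N : Finset V) (G : (Fin k → V) → ℝ) :
    ∑ x ∈ inj k N, G (x ∘ σ) = ∑ x ∈ inj k N, G x := by
  refine Finset.sum_bij' (fun x _ => x ∘ σ) (fun x _ => x ∘ σ.symm) ?_ ?_ ?_ ?_ ?_
  · intro x hx
    rw [mem_inj] at hx ⊢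
    exact ⟨hx.1.comp σ.injective, fun j => hx.2 _⟩
  · intro x hx
    rw [mem_inj] at hx ⊢
    exact ⟨hx.1.comp σ.symm.injective, fun j => hx.2 _⟩
  · intro x _; ext j; simp
  · intro x _; ext j; simp
  · intro x _; rfl

theorem sum_inj_coord (k : ℕ) (i : Fin (k + 1)) (N : Finset V) (M : V → Finset V) (D : V → ℕ)
    (hD : ∀ w ∈ N, (M w ∩ N.erase w).card < D w) (hself : ∀ w ∈ N, w ∉ M w) :
    ∑ x ∈ inj (k + 1) N,
      1 / ((D (x i) : ℝ) - ((univ.filter (fun j => x j ∈ M (x i))).card : ℝ))
      ≤ ∑ w ∈ N, (1 / (D w : ℝ)) * (N.card.descFactorial k : ℝ) := by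
  rw [← sum_inj_perm (Equiv.swap 0 i)]
  have h1 : ∀ x : Fin (k + 1) → V,
      (univ.filter (fun j => (x ∘ (Equiv.swap 0 i)) j ∈ M ((x ∘ (Equiv.swap 0 i)) i))).card
        = (univ.filter (fun j => x j ∈ M (x 0))).card := by
    intro x
    refine Finset.card_bij (fun j _ => Equiv.swap 0 i j) ?_ ?_ ?_
    · intro j hj
      simpa using hj
    · intro a _ b _ hab
      exact (Equiv.swap 0 i).injective hab
    · intro j hj
      refine ⟨Equiv.swap 0 i j, ?_, by simp⟩
      simpa using hj
  have h2 : ∀ x : Fin (k + 1) → V, (x ∘ (Equiv.swap 0 i)) i = x 0 := by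
    intro x; simp
  have hG : ∀ x : Fin (k + 1) → V, (1 / ((D ((x ∘ (Equiv.swap 0 i)) i) : ℝ) -
      ((univ.filter (fun j => (x ∘ (Equiv.swap 0 i)) j ∈ M ((x ∘ (Equiv.swap 0 i)) i))).card : ℝ)))
      = 1 / ((D (x 0) : ℝ) - ((univ.filter (fun j => x j ∈ M (x 0))).card : ℝ)) := by
    intro x; rw [h1 x, h2 x]
  rw [Finset.sum_congr rfl (fun x _ => hG x), sum_inj_succ]
  refine Finset.sum_le_sum fun w hw => ?_
  have hcard : (N.erase w).card + 1 = N.card := by
    rw [Finset.card_erase_of_mem hw]
    have := Finset.card_pos.mpr ⟨w, hw⟩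
    omega
  have h3 := sum_inj_bound k (N.erase w) (M w) (D w) (hD w hw)
  rw [hcard] at h3
  refine le_trans (le_of_eq ?_) h3
  refine Finset.sum_congr rfl fun y _ => ?_
  simp only [Fin.cons_zero]
  rw [card_filter_cons, if_neg (hself w hw)]
  simp

omit [Fintype V] in
/-- Hall's theorem: if there is no system of distinct representatives then
`∑ 1/(|A i| + 1) ≥ 1`. -/
theorem hall_fail {κ : Type*} [Fintype κ] (A : κ → Finset V)
    (h : ¬ ∃ g : κ → V, Function.Injective g ∧ ∀ i, g i ∈ A i) :
    1 ≤ ∑ i, 1 / (((A i).card : ℝ) + 1) := by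
  rw [← Finset.all_card_le_biUnion_card_iff_exists_injective] at h
  push Not at h
  obtain ⟨s, hs⟩ := h
  have hspos : 0 < s.card := by omega
  have hsr : (0 : ℝ) < s.card := by exact_mod_cast hspos
  have h1 : ∀ i ∈ s, 1 / (s.card : ℝ) ≤ 1 / (((A i).card : ℝ) + 1) := by
    intro i hi
    have h2 : (A i).card ≤ (s.biUnion A).card :=
      Finset.card_le_card (Finset.subset_biUnion_of_mem A hi)
    have h3 : (A i).card + 1 ≤ s.card := by omega
    apply one_div_le_one_div_of_le
    · positivity
    · exact_mod_cast h3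
  calc (1 : ℝ) = ∑ i ∈ s, 1 / (s.card : ℝ) := by
        rw [Finset.sum_const, nsmul_eq_mul]; field_simp
    _ ≤ ∑ i ∈ s, 1 / (((A i).card : ℝ) + 1) := Finset.sum_le_sum h1
    _ ≤ ∑ i, 1 / (((A i).card : ℝ) + 1) :=
        Finset.sum_le_univ_sum_of_nonneg fun i => by positivity

end Pool.Agent.TH528.Kalai
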