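import Pool.Agent.TH528.Kalai.Basic

set_option autoImplicit false

open Finset

namespace Pool.Agent.TH528.Kalai

variable {V : Type*} [Fintype V] [DecidableEq V]
variable {ι : Type*} [Fintype ι] [DecidableEq ι]
variable {H : Finset (Finset V)}

/-- number of labellings of a given edge -/
theorem card_labellings {h : Finset V} (hh : h.card = Fintype.card ι) :
    ((univ : Finset (ι → V)).filter (fun f => univ.image f = h)).card
      = (Fintype.card ι).factorial := by
  have h1 : Fintype.card (ι ↪ h) = (Fintype.card ι).factorial := by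
    rw [Fintype.card_embedding_eq, Fintype.card_coe, hh, Nat.descFactorial_self]
  rw [← h1, ← Finset.card_univ]
  symm
  refine Finset.card_bij (fun (g : ι ↪ h) _ => fun i => (g i : V)) ?_ ?_ ?_
  · intro g _
    simp only [Finset.mem_filter, Finset.mem_univ, true_and]
    apply Finset.eq_of_subset_of_card_le
    · intro x hx
      simp only [Finset.mem_image, Finset.mem_univ, true_and] at hx
      obtain ⟨a, rfl⟩ := hx
      exact (g a).2
    · rw [Finset.card_image_of_injective, Finset.card_univ, hh]
      intro a b hab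
      exact g.injective (Subtype.ext hab)
  · intro g _ g' _ hgg
    ext i
    exact congrFun hgg i
  · intro f hf
    simp only [Finset.mem_filter, Finset.mem_univ, true_and] at hf
    have hinj : Function.Injective f := by
      have h2 : (univ.image f).card = (univ : Finset ι).card := by
        rw [hf, hh, Finset.card_univ]
      rw [Finset.card_image_iff] at h2
      intro a b hab
      exact h2 (by simp) (by simp) hab
    have hmem : ∀ i, f i ∈ h := by
      intro i
      rw [← hf]
      exact Finset.mem_image_of_mem _ (Finset.mem_univ _)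
    refine ⟨⟨fun i => ⟨f i, hmem i⟩, ?_⟩, Finset.mem_univ _, rfl⟩
    intro a b hab
    exact hinj (congrArg Subtype.val hab)

theorem sum_lab_image (hH : ∀ h ∈ H, h.card = Fintype.card ι) (g : Finset V → ℝ) :
    ∑ f ∈ lab ι H, g (univ.image f)
      = ((Fintype.card ι).factorial : ℝ) * ∑ h ∈ H, g h := by
  have h1 : ∑ f ∈ lab ι H, g (univ.image f)
      = ∑ h ∈ H, ∑ f ∈ (lab ι H).filter (fun f => univ.image f = h), g (univ.image f) := by
    symm
    apply Finset.sum_fiberwise_of_maps_to
    intro f hf
    exact mem_lab.mp hf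
  rw [h1, Finset.mul_sum]
  refine Finset.sum_congr rfl fun h hh => ?_
  have h2 : (lab ι H).filter (fun f => univ.image f = h)
      = (univ : Finset (ι → V)).filter (fun f => univ.image f = h) := by
    ext f
    simp only [Finset.mem_filter, Finset.mem_univ, true_and, mem_lab]
    constructor
    · exact fun h => h.2
    · intro h3
      exact ⟨by rw [h3]; exact hh, h3⟩
  rw [h2]
  rw [Finset.sum_congr rfl (g := fun _ => g h)]
  · rw [Finset.sum_const, card_labellings (hH h hh), nsmul_eq_mul]
  · intro f hf
    simp only [Finset.mem_filter, Finset.mem_univ, true_and] at hf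
    rw [hf]

theorem card_lab (hH : ∀ h ∈ H, h.card = Fintype.card ι) :
    ((lab ι H).card : ℝ) = ((Fintype.card ι).factorial : ℝ) * H.card := by
  have := sum_lab_image (ι := ι) hH (fun _ => (1 : ℝ))
  simpa using this

/-- the class size is the number of edges above the facet -/
theorem cls_card_eq (hH : ∀ h ∈ H, h.card = Fintype.card ι) {f : ι → V} (hf : f ∈ lab ι H)
    (j : ι) : (cls H f j).card = dg H ((univ.image f).erase (f j)) := by
  have hinj := inj_of_mem_lab hH hf
  have himg : ∀ w, univ.image (Function.update f j w) = insert w ((univ.image f).erase (f j)) := by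
    intro w
    ext x
    simp only [Finset.mem_image, Finset.mem_univ, true_and, Finset.mem_insert, Finset.mem_erase]
    constructor
    · rintro ⟨a, ha⟩
      by_cases haj : a = j
      · subst haj
        left
        simpa using ha.symm
      · right
        rw [Function.update_of_ne haj] at ha
        refine ⟨?_, a, ha⟩
        rw [← ha]
        exact fun h => haj (hinj h)
    · rintro (h | ⟨h, a, ha⟩)
      · exact ⟨j, by simp [h]⟩
      · have haj : a ≠ j := by
          rintro rfl
          exact h ha.symm
        exact ⟨a, by rw [Function.update_of_ne haj]; exact ha⟩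
  have hScard : ((univ.image f).erase (f j)).card = Fintype.card ι - 1 := by
    rw [Finset.card_erase_of_mem (Finset.mem_image_of_mem _ (Finset.mem_univ _)),
      Finset.card_image_of_injective _ hinj, Finset.card_univ]
  have hcpos : 0 < Fintype.card ι := Fintype.card_pos_iff.mpr ⟨j⟩
  have hnot : ∀ w ∈ cls H f j, w ∉ (univ.image f).erase (f j) := by
    intro w hw hmem
    rw [mem_cls, mem_lab, himg] at hw
    have h1 := hH _ hw
    rw [Finset.insert_eq_of_mem hmem, hScard] at h1
    omega
  unfold dg
  refine Finset.card_bij (fun w _ => insert w ((univ.image f).erase (f j))) ?_ ?_ ?_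
  · intro w hw
    have hw' := hw
    rw [mem_cls, mem_lab, himg] at hw'
    rw [Finset.mem_filter]
    exact ⟨hw', Finset.subset_insert _ _⟩
  · intro w hw w' hw' h
    have h1 : w ∈ insert w' ((univ.image f).erase (f j)) := by
      rw [← h]; exact Finset.mem_insert_self _ _
    rcases Finset.mem_insert.mp h1 with h2 | h2
    · exact h2
    · exact absurd h2 (hnot w hw)
  · intro h hh
    rw [Finset.mem_filter] at hh
    have h1 := hH h hh.1
    have h2 : ∃ w ∈ h, w ∉ (univ.image f).erase (f j) := by
      by_contra hcon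
      push Not at hcon
      have := Finset.card_le_card hcon
      omega
    obtain ⟨w, hw, hw2⟩ := h2
    have h3 : insert w ((univ.image f).erase (f j)) = h := by
      apply Finset.eq_of_subset_of_card_le
      · intro x hx
        rcases Finset.mem_insert.mp hx with rfl | hx
        · exact hw
        · exact hh.2 hx
      · rw [Finset.card_insert_of_notMem hw2]
        omega
    refine ⟨w, ?_, h3⟩
    rw [mem_cls, mem_lab, himg, h3]
    exact hh.1

omit [Fintype V] in
/-- `∑ over h, x of F (h \ x)` as a sum over the shadow -/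
theorem sum_erase_eq_shadow {r : ℕ} (hr : 1 ≤ r) (hH : ∀ h ∈ H, h.card = r) :
    ∑ h ∈ H, ∑ x ∈ h, (1 / (dg H (h.erase x) : ℝ)) = (H.shadow.card : ℝ) := by
  have h1 : ∀ h ∈ H, ∑ x ∈ h, (1 / (dg H (h.erase x) : ℝ))
      = ∑ S ∈ H.shadow.filter (fun S => S ⊆ h), (1 / (dg H S : ℝ)) := by
    intro h hh
    refine Finset.sum_bij (fun x _ => h.erase x) ?_ ?_ ?_ ?_
    · intro x hx
      rw [Finset.mem_filter, Finset.mem_shadow_iff]
      exact ⟨⟨h, hh, x, hx, rfl⟩, Finset.erase_subset _ _⟩
    · intro x hx y hy hxy
      by_contra hne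
      have h2 : y ∈ h.erase x := Finset.mem_erase.mpr ⟨Ne.symm hne, hy⟩
      rw [hxy] at h2
      simp at h2
    · intro S hS
      rw [Finset.mem_filter, Finset.mem_shadow_iff] at hS
      obtain ⟨⟨h', hh', a, ha, hSa⟩, hSh⟩ := hS
      have hc : S.card = r - 1 := by
        rw [← hSa, Finset.card_erase_of_mem ha, hH _ hh']
      have hc2 := hH h hh
      have h2 : ∃ w ∈ h, w ∉ S := by
        by_contra hcon
        push Not at hcon
        have := Finset.card_le_card hcon
        omega
      obtain ⟨w, hw, hw2⟩ := h2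
      refine ⟨w, hw, ?_⟩
      symm
      apply Finset.eq_of_subset_of_card_le
      · intro x hx
        refine Finset.mem_erase.mpr ⟨?_, hSh hx⟩
        rintro rfl
        exact hw2 hx
      · rw [Finset.card_erase_of_mem hw]
        omega
    · intro x _
      rfl
  rw [Finset.sum_congr rfl h1]
  simp only [Finset.sum_filter]
  rw [Finset.sum_comm]
  have h2 : ∀ S ∈ H.shadow, ∑ h ∈ H, (if S ⊆ h then (1 / (dg H S : ℝ)) else 0) = 1 := by
    intro S hS
    rw [← Finset.sum_filter, Finset.sum_const, nsmul_eq_mul]
    have h3 : 0 < (H.filter (fun h => S ⊆ h)).card := by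
      rw [Finset.card_pos]
      rw [Finset.mem_shadow_iff] at hS
      obtain ⟨h', hh', a, ha, hSa⟩ := hS
      exact ⟨h', Finset.mem_filter.mpr ⟨hh', by rw [← hSa]; exact Finset.erase_subset _ _⟩⟩
    unfold dg
    have h4 : ((H.filter (fun h => S ⊆ h)).card : ℝ) ≠ 0 := by positivity
    field_simp
  rw [Finset.sum_congr rfl h2]
  simp

/-- The basic normalisation: `r ∑_f 1/deg_j f = r! |∂H|`. -/
theorem sum_inv_deg (hH : ∀ h ∈ H, h.card = Fintype.card ι) (j : ι) :
    (Fintype.card ι : ℝ) * ∑ f ∈ lab ι H, (1 / ((cls H f j).card : ℝ))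
      = ((Fintype.card ι).factorial : ℝ) * H.shadow.card := by
  have hcpos : 1 ≤ Fintype.card ι := Fintype.card_pos_iff.mpr ⟨j⟩
  have h1 : (Fintype.card ι : ℝ) * ∑ f ∈ lab ι H, (1 / ((cls H f j).card : ℝ))
      = ∑ i : ι, ∑ f ∈ lab ι H, (1 / ((cls H f i).card : ℝ)) := by
    have : ∀ i ∈ (univ : Finset ι), ∑ f ∈ lab ι H, (1 / ((cls H f i).card : ℝ))
        = ∑ f ∈ lab ι H, (1 / ((cls H f j).card : ℝ)) :=
      fun i _ => sum_deg_eq (fun n => 1 / (n : ℝ)) i j
    rw [Finset.sum_congr rfl this, Finset.sum_const, Finset.card_univ, nsmul_eq_mul]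
  rw [h1, Finset.sum_comm]
  have h2 : ∀ f ∈ lab ι H, ∑ i : ι, (1 / ((cls H f i).card : ℝ))
      = (fun h : Finset V => ∑ x ∈ h, (1 / (dg H (h.erase x) : ℝ))) (univ.image f) := by
    intro f hf
    have hinj := inj_of_mem_lab hH hf
    simp only
    rw [Finset.sum_image (fun a _ b _ hab => hinj hab)]
    refine Finset.sum_congr rfl fun i _ => ?_
    rw [cls_card_eq hH hf]
  rw [Finset.sum_congr rfl h2,
    sum_lab_image hH (fun h : Finset V => ∑ x ∈ h, (1 / (dg H (h.erase x) : ℝ))),
    sum_erase_eq_shadow hcpos hH]

theorem shadow_card_le {r n : ℕ} {H : Finset (Finset (Fin n))} (hH : ∀ h ∈ H, h.card = r) :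
    H.shadow.card ≤ n.choose (r - 1) := by
  have h1 : H.shadow ⊆ Finset.powersetCard (r - 1) (univ : Finset (Fin n)) := by
    intro S hS
    rw [Finset.mem_shadow_iff] at hS
    obtain ⟨h', hh', a, ha, hSa⟩ := hS
    rw [Finset.mem_powersetCard]
    refine ⟨Finset.subset_univ _, ?_⟩
    rw [← hSa, Finset.card_erase_of_mem ha, hH _ hh']
  have h2 := Finset.card_le_card h1
  rw [Finset.card_powersetCard, Finset.card_univ, Fintype.card_fin] at h2
  exact h2

end Pool.Agent.TH528.Kalai
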