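import Pool.Agent.TH528.Kalai.Tree
import Pool.Agent.TH528.Kalai.Shadow

set_option autoImplicit false

open Finset

namespace Pool.Agent.TH528.Kalai

variable {V : Type*} [Fintype V] [DecidableEq V]

section star

variable {E0 : Finset ℕ} {n : ℕ}

/-- the vertex map of a star shaped trunk -/
noncomputable def psi (S : Finset ℕ) (f : ↥E0 → V) (m : ↥E0) (y : Fin n → ℕ) (x : Fin n → V) :
    ℕ → V :=
  fun a => if h : a ∈ S ∧ a ∈ E0 then f ⟨a, h.2⟩
    else if h2 : ∃ k, a = y k then x h2.choose else f m

variable {S : Finset ℕ} {f : ↥E0 → V} {m : ↥E0} {y : Fin n → ℕ} {x : Fin n → V}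

omit [Fintype V] [DecidableEq V] in
theorem psi_S {a : ℕ} (ha : a ∈ S) (ha0 : a ∈ E0) : psi S f m y x a = f ⟨a, ha0⟩ := by
  unfold psi
  rw [dif_pos ⟨ha, ha0⟩]

omit [Fintype V] [DecidableEq V] in
theorem psi_y (hy : Function.Injective y) (hyS : ∀ k, y k ∉ S) (k : Fin n) :
    psi S f m y x (y k) = x k := by
  unfold psi
  rw [dif_neg (fun h => hyS k h.1)]
  have hex : ∃ k', y k = y k' := ⟨k, rfl⟩
  rw [dif_pos hex]
  congr 1
  exact (hy hex.choose_spec).symm

omit [Fintype V] in
/-- image of `S` -/
theorem psi_image_S (hS0 : S ⊆ E0) (hE0 : ∀ a ∈ E0, a = m.1 ∨ a ∈ S) (hmS : m.1 ∉ S) :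
    S.image (psi S f m y x) = fac f m := by
  ext w
  simp only [fac, Finset.mem_image, Finset.mem_erase, Finset.mem_univ, and_true]
  constructor
  · rintro ⟨a, ha, rfl⟩
    refine ⟨⟨a, hS0 ha⟩, ?_, (psi_S ha (hS0 ha)).symm⟩
    intro h
    apply hmS
    rw [← h]
    exact ha
  · rintro ⟨a, ha, rfl⟩
    have haS : a.1 ∈ S := by
      rcases hE0 a.1 a.2 with h | h
      · exact absurd (Subtype.ext h) ha
      · exact h
    exact ⟨a.1, haS, psi_S haS a.2⟩

omit [Fintype V] in
/-- image of a facet through `y k` -/
theorem psi_image_facet (hS0 : S ⊆ E0) (hE0 : ∀ a ∈ E0, a = m.1 ∨ a ∈ S) (hmS : m.1 ∉ S)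
    (hy : Function.Injective y) (hyS : ∀ k, y k ∉ S) (k : Fin n) (z : ↥E0) (hz : z.1 ∈ S) :
    ((insert (y k) S).erase z.1).image (psi S f m y x)
      = fac (Function.update f m (x k)) z := by
  have hzm : z ≠ m := by
    rintro rfl
    exact hmS hz
  ext w
  simp only [fac, Finset.mem_image, Finset.mem_erase, Finset.mem_univ, and_true,
    Finset.mem_insert]
  constructor
  · rintro ⟨a, ⟨haz, ha | ha⟩, rfl⟩
    · subst ha
      exact ⟨m, Ne.symm hzm, by rw [psi_y hy hyS]; simp⟩
    · refine ⟨⟨a, hS0 ha⟩, ?_, ?_⟩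
      · intro h
        exact haz (by rw [← h])
      · rw [psi_S ha (hS0 ha), Function.update_of_ne]
        intro h
        apply hmS
        rw [← h]
        exact ha
  · rintro ⟨a, ha, rfl⟩
    by_cases ham : a = m
    · subst ham
      refine ⟨y k, ⟨?_, Or.inl rfl⟩, ?_⟩
      · intro h
        exact hyS k (by rw [h]; exact hz)
      · rw [psi_y hy hyS]; simp
    · have haS : a.1 ∈ S := by
        rcases hE0 a.1 a.2 with h | h
        · exact absurd (Subtype.ext h) ham
        · exact h
      refine ⟨a.1, ⟨?_, Or.inr haS⟩, ?_⟩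
      · intro h
        exact ha (Subtype.ext h)
      · rw [psi_S haS a.2, Function.update_of_ne ham]

end star

/-- The local inequality for star-shaped trunks. -/
theorem star_local {t k' : ℕ} {e : ℕ → Finset ℕ} {v : ℕ → ℕ}
    {S : Finset ℕ} {m : ↥(e 0)} {y : Fin (k' + 1) → ℕ}
    (hS0 : S ⊆ e 0) (hE0 : ∀ a ∈ e 0, a = m.1 ∨ a ∈ S) (hmS : m.1 ∉ S)
    (hy : Function.Injective y) (hyS : ∀ k, y k ∉ S) (he : ∀ k : Fin (k' + 1), e k = insert (y k) S)
    (hv : ∀ i, 0 < i → i < t → v i ∈ e i ∧ (∀ j, j < i → v i ∉ e j) ∧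
      ∃ j, j < i ∧ (e i).erase (v i) ⊆ e j)
    (htr : ∀ i j x, i < t → j < t → x ∈ e i → x ∈ e j → x ∉ TV (k' + 1) e → i = j)
    (L1 : Finset ℕ) (hL1 : L1 ⊆ Finset.Ico (k' + 1) t)
    (hL0 : ∀ i ∈ (Finset.Ico (k' + 1) t) \ L1, (e i).erase (v i) = S)
    (zz : ℕ → ↥(e 0)) (kk : ℕ → Fin (k' + 1))
    (hzz : ∀ i ∈ L1, (zz i).1 ∈ S)
    (hkk : ∀ i ∈ L1, (e i).erase (v i) = (insert (y (kk i)) S).erase (zz i).1)
    {H : Finset (Finset V)} (hH : ∀ h ∈ H, h.card = Fintype.card ↥(e 0))
    (hno : ¬ ∃ f : ℕ → V, Set.InjOn f {x : ℕ | ∃ i, i < t ∧ x ∈ e i} ∧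
          ∀ i, i < t → (e i).image f ∈ H)
    {f : ↥(e 0) → V} (hf : f ∈ lab ↥(e 0) H) :
    ((cls H f m).card : ℝ) - k' ≤ (((Finset.Ico (k' + 1) t) \ L1).card : ℝ) +
      ∑ i ∈ L1, ∑ w ∈ cls H f m,
        1 / ((cls H (Function.update f m w) (zz i)).card : ℝ) := by
  classical
  set N := cls H f m with hN
  set d := N.card with hd
  have hsumnonneg : (0 : ℝ) ≤ ∑ i ∈ L1, ∑ w ∈ N,
      1 / ((cls H (Function.update f m w) (zz i)).card : ℝ) :=
    Finset.sum_nonneg fun i _ => Finset.sum_nonneg fun w _ =>
      one_div_nonneg.mpr (Nat.cast_nonneg _)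
  rcases Nat.lt_or_ge k' d with hdk | hdk
  swap
  · have : (d : ℝ) ≤ k' := by exact_mod_cast hdk
    have h0 : (0 : ℝ) ≤ (((Finset.Ico (k' + 1) t) \ L1).card : ℝ) := Nat.cast_nonneg _
    linarith
  have hfinj := inj_of_mem_lab hH hf
  -- facts for each x
  have hx_main : ∀ x ∈ inj (k' + 1) N,
      (1 : ℝ) ≤ ∑ i ∈ (Finset.Ico (k' + 1) t) \ L1, 1 / ((d : ℝ) - k')
        + ∑ i ∈ L1, 1 / (((cls H (Function.update f m (x (kk i))) (zz i)).card : ℝ)
          - ((univ.filter (fun j => x j ∈
              cls H (Function.update f m (x (kk i))) (zz i))).card : ℝ)) := by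
    intro x hx
    rw [mem_inj] at hx
    obtain ⟨hxinj, hxN⟩ := hx
    set ψ := psi S f m y x with hψ
    have hlabx : ∀ k, Function.update f m (x k) ∈ lab ↥(e 0) H := fun k => mem_cls.mp (hxN k)
    have hTV : ∀ a, a ∈ TV (k' + 1) e ↔ a ∈ S ∨ ∃ k, a = y k := by
      intro a
      rw [mem_TV]
      constructor
      · rintro ⟨k, hk, hak⟩
        have := he ⟨k, hk⟩
        simp only at this
        rw [this, Finset.mem_insert] at hak
        rcases hak with h | h
        · exact Or.inr ⟨_, h⟩
        · exact Or.inl h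
      · rintro (h | ⟨k, rfl⟩)
        · exact ⟨0, by omega, hS0 h⟩
        · exact ⟨k, k.2, by rw [he k]; exact Finset.mem_insert_self _ _⟩
    have hcross : ∀ (k) (a : ↥(e 0)), a ≠ m → x k ≠ f a := by
      intro k a ha h
      have h1 := inj_of_mem_lab hH (hlabx k)
      apply ha
      apply h1
      rw [Function.update_of_ne ha, Function.update_self]
      exact h.symm
    have hne_m : ∀ {a : ℕ} (ha : a ∈ S) (ha0 : a ∈ e 0), (⟨a, ha0⟩ : ↥(e 0)) ≠ m := by
      intro a ha ha0 h
      apply hmS
      rw [← h]
      exact ha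
    have hψS : ∀ {a : ℕ} (ha : a ∈ S), ψ a = f ⟨a, hS0 ha⟩ := fun ha => psi_S ha (hS0 ha)
    have hψy : ∀ k, ψ (y k) = x k := fun k => psi_y hy hyS k
    have hψinj : Set.InjOn ψ {a : ℕ | a ∈ TV (k' + 1) e} := by
      intro a ha b hb hab
      simp only [Set.mem_ofPred_eq] at ha hb
      rw [hTV] at ha hb
      rcases ha with ha | ⟨k, rfl⟩ <;> rcases hb with hb | ⟨l, rfl⟩
      · rw [hψS ha, hψS hb] at hab
        have := hfinj hab
        exact congrArg Subtype.val this
      · exfalso
        rw [hψS ha, hψy] at hab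
        exact hcross l _ (hne_m ha (hS0 ha)) hab.symm
      · exfalso
        rw [hψS hb, hψy] at hab
        exact hcross k _ (hne_m hb (hS0 hb)) hab
      · rw [hψy, hψy] at hab
        rw [hxinj hab]
    have hψE : ∀ k, k < k' + 1 → (e k).image ψ ∈ H := by
      intro k hk
      have h1 := he ⟨k, hk⟩
      simp only at h1
      rw [h1, Finset.image_insert, psi_image_S hS0 hE0 hmS, hψy, ← image_update]
      exact mem_lab.mp (hlabx _)
    have hfail := embed_fail (by omega : 1 ≤ k' + 1) hv htr hψinj hψE hno
    refine le_trans hfail ?_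
    rw [← Finset.sum_sdiff hL1]
    apply add_le_add
    · -- leaves at S
      refine Finset.sum_le_sum fun i hi => ?_
      have hiS := hL0 i hi
      have h1 : N ⊆ avail H (k' + 1) e v ψ i ∪ univ.image x := by
        intro w hw
        rw [Finset.mem_union]
        by_cases hwx : w ∈ univ.image x
        · exact Or.inr hwx
        · left
          simp only [avail, Finset.mem_filter, Finset.mem_univ, true_and]
          rw [hiS, psi_image_S hS0 hE0 hmS]
          refine ⟨mem_cls_iff.mp hw, ?_⟩
          intro hmem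
          obtain ⟨a, ha, haw⟩ := Finset.mem_image.mp hmem
          rw [hTV] at ha
          rcases ha with ha | ⟨k, rfl⟩
          · apply notMem_fac hH hw
            rw [← psi_image_S (f := f) (y := y) (x := x) hS0 hE0 hmS, ← haw]
            exact Finset.mem_image_of_mem _ ha
          · apply hwx
            rw [← haw, hψy]
            exact Finset.mem_image_of_mem _ (Finset.mem_univ _)
      have h2 := Finset.card_le_card h1
      have h3 := Finset.card_union_le (avail H (k' + 1) e v ψ i) (univ.image x)
      have h4 : (univ.image x).card ≤ k' + 1 := by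
        refine le_trans Finset.card_image_le ?_
        simp
      have h5 : d ≤ (avail H (k' + 1) e v ψ i).card + (k' + 1) := by omega
      apply one_div_le_one_div_of_le
      · have : (k' : ℝ) < d := by exact_mod_cast hdk
        linarith
      · have : (d : ℝ) ≤ (avail H (k' + 1) e v ψ i).card + ((k' : ℝ) + 1) := by exact_mod_cast h5
        linarith
    · -- leaves at other facets
      refine Finset.sum_le_sum fun i hi => ?_
      have hzS := hzz i hi
      have hik := hkk i hi
      set k := kk i with hk
      set z := zz i with hz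
      set g := Function.update f m (x k) with hg
      set C := cls H g z with hC
      have hzm : z ≠ m := by
        intro h
        apply hmS
        rw [← h]
        exact hzS
      set J := univ.filter (fun j => x j ∈ C) with hJ
      have hfz : f z ∈ C := by
        have := self_mem_cls (hlabx k) z
        rwa [Function.update_of_ne hzm] at this
      have hJinj : (J.image x).card = J.card := Finset.card_image_of_injective _ hxinj
      -- J.image x ⊆ C.erase (f z)
      have hJsub : J.image x ⊆ C.erase (f z) := by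
        intro w hw
        obtain ⟨j, hj, rfl⟩ := Finset.mem_image.mp hw
        rw [hJ, Finset.mem_filter] at hj
        exact Finset.mem_erase.mpr ⟨hcross j z hzm, hj.2⟩
      have hJlt : J.card < C.card := by
        have h1 := Finset.card_le_card hJsub
        rw [hJinj, Finset.card_erase_of_mem hfz] at h1
        have := Finset.card_pos.mpr ⟨_, hfz⟩
        omega
      have h1 : C ⊆ avail H (k' + 1) e v ψ i ∪ insert (f z) (J.image x) := by
        intro w hw
        rw [Finset.mem_union]
        by_cases hwx : w ∈ insert (f z) (J.image x)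
        · exact Or.inr hwx
        · left
          simp only [avail, Finset.mem_filter, Finset.mem_univ, true_and]
          rw [hik, psi_image_facet hS0 hE0 hmS hy hyS k z hzS]
          refine ⟨mem_cls_iff.mp hw, ?_⟩
          intro hmem
          obtain ⟨a, ha, haw⟩ := Finset.mem_image.mp hmem
          rw [hTV] at ha
          rcases ha with ha | ⟨l, rfl⟩
          · by_cases haz : a = z.1
            · apply hwx
              rw [← haw, hψS ha]
              apply Finset.mem_insert.mpr
              left
              congr 1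
              exact Subtype.ext haz
            · apply notMem_fac hH hw
              rw [← psi_image_facet (f := f) (x := x) hS0 hE0 hmS hy hyS k z hzS, ← haw]
              exact Finset.mem_image_of_mem _ (Finset.mem_erase.mpr
                ⟨haz, Finset.mem_insert_of_mem ha⟩)
          · apply hwx
            rw [hψy] at haw
            apply Finset.mem_insert_of_mem
            rw [← haw]
            apply Finset.mem_image_of_mem
            rw [hJ, Finset.mem_filter]
            exact ⟨Finset.mem_univ _, by rw [haw]; exact hw⟩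
      have h2 := Finset.card_le_card h1
      have h3 := Finset.card_union_le (avail H (k' + 1) e v ψ i) (insert (f z) (J.image x))
      have h4 := Finset.card_insert_le (f z) (J.image x)
      have h5 : C.card ≤ (avail H (k' + 1) e v ψ i).card + 1 + J.card := by omega
      apply one_div_le_one_div_of_le
      · have : (J.card : ℝ) < C.card := by exact_mod_cast hJlt
        linarith
      · have : (C.card : ℝ) ≤ (avail H (k' + 1) e v ψ i).card + 1 + J.card := by exact_mod_cast h5
        linarith
  -- sum over x
  have hsum := Finset.sum_le_sum hx_main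
  rw [Finset.sum_const, nsmul_eq_mul, mul_one, card_inj, Finset.sum_add_distrib,
    Finset.sum_const, nsmul_eq_mul, card_inj] at hsum
  rw [Finset.sum_comm (s := inj (k' + 1) N) (t := L1)] at hsum
  have hbound : ∀ i ∈ L1, ∑ x ∈ inj (k' + 1) N,
      1 / (((cls H (Function.update f m (x (kk i))) (zz i)).card : ℝ)
          - ((univ.filter (fun j => x j ∈
              cls H (Function.update f m (x (kk i))) (zz i))).card : ℝ))
      ≤ ∑ w ∈ N, (1 / ((cls H (Function.update f m w) (zz i)).card : ℝ)) *
        (N.card.descFactorial k' : ℝ) := by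
    intro i hi
    have hzm : zz i ≠ m := by
      intro h
      apply hmS
      rw [← h]
      exact hzz i hi
    refine sum_inj_coord k' (kk i) N (fun w => cls H (Function.update f m w) (zz i))
      (fun w => (cls H (Function.update f m w) (zz i)).card) ?_ ?_
    · intro w hw
      have hw' : Function.update f m w ∈ lab ↥(e 0) H := mem_cls.mp hw
      have hfz : f (zz i) ∈ cls H (Function.update f m w) (zz i) := by
        have := self_mem_cls hw' (zz i)
        rwa [Function.update_of_ne hzm] at this
      apply Finset.card_lt_card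
      refine ⟨Finset.inter_subset_left, ?_⟩
      intro hsub
      have h1 := hsub hfz
      rw [Finset.mem_inter, Finset.mem_erase] at h1
      have h2 := h1.2.2
      apply notMem_fac hH h2
      unfold fac
      exact Finset.mem_image_of_mem _ (Finset.mem_erase.mpr ⟨hzm, Finset.mem_univ _⟩)
    · intro w hw h1
      apply notMem_fac hH h1
      unfold fac
      have h2 : (Function.update f m w) m ∈ (univ.erase (zz i)).image (Function.update f m w) :=
        Finset.mem_image_of_mem _ (Finset.mem_erase.mpr ⟨Ne.symm hzm, Finset.mem_univ _⟩)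
      rwa [Function.update_self] at h2
  have hsum2 := Finset.sum_le_sum hbound
  -- arithmetic
  have hKpos : (0 : ℝ) < (d.descFactorial k' : ℝ) := by
    have : 0 < d.descFactorial k' := Nat.descFactorial_pos.mpr (by omega)
    exact_mod_cast this
  have hsucc : (N.card.descFactorial (k' + 1) : ℝ) = ((d : ℝ) - k') * (d.descFactorial k' : ℝ) := by
    rw [Nat.descFactorial_succ]
    push_cast [Nat.cast_sub (le_of_lt hdk)]
    rw [← hd, Nat.cast_sub (le_of_lt hdk)]
  have hdk0 : (0 : ℝ) < (d : ℝ) - k' := by
    have : (k' : ℝ) < d := by exact_mod_cast hdk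
    linarith
  rw [hsucc, Finset.sum_const, nsmul_eq_mul] at hsum
  have h3 : ∑ i ∈ L1, ∑ w ∈ N, (1 / ((cls H (Function.update f m w) (zz i)).card : ℝ)) *
        (N.card.descFactorial k' : ℝ) = (∑ i ∈ L1, ∑ w ∈ N,
          1 / ((cls H (Function.update f m w) (zz i)).card : ℝ)) * (d.descFactorial k' : ℝ) := by
    rw [Finset.sum_mul]
    refine Finset.sum_congr rfl fun i _ => ?_
    rw [Finset.sum_mul]
  rw [h3] at hsum2
  have h4 := le_trans hsum (add_le_add_right hsum2 _)
  have h5 : ((d : ℝ) - k') * (d.descFactorial k' : ℝ) *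
      ((((Finset.Ico (k' + 1) t) \ L1).card : ℝ) * (1 / ((d : ℝ) - k')))
      = (((Finset.Ico (k' + 1) t) \ L1).card : ℝ) * (d.descFactorial k' : ℝ) := by
    field_simp
  rw [h5, ← add_mul] at h4
  exact le_of_mul_le_mul_right h4 hKpos

end Pool.Agent.TH528.Kalai
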