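import Pool.Agent.TH528.Kalai.Star

set_option autoImplicit false

open Finset

namespace Pool.Agent.TH528.Kalai

variable {V : Type*} [Fintype V] [DecidableEq V]

/-- Shadow form of the bound for star-shaped trunks. -/
theorem star_shadow {r t c : ℕ} (hr : 1 ≤ r) (hc : 1 ≤ c) (hct : c ≤ t)
    {e : ℕ → Finset ℕ}
    (hcard : ∀ i, i < t → (e i).card = r)
    (htight : ∀ i, 0 < i → i < t →
        ∃ v ∈ e i, (∀ j, j < i → v ∉ e j) ∧ ∃ j, j < i ∧ e i \ {v} ⊆ e j)
    {S : Finset ℕ} (hScard : S.card + 1 = r) (hS : ∀ i, i < c → S ⊆ e i)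
    (htrunk : ∀ i j x, i < t → j < t → x ∈ e i → x ∈ e j → (∀ k, k < c → x ∉ e k) → i = j)
    {H : Finset (Finset V)} (hH : ∀ h ∈ H, h.card = r)
    (hno : ¬ ∃ f : ℕ → V, Set.InjOn f {x : ℕ | ∃ i, i < t ∧ x ∈ e i} ∧
          ∀ i, i < t → (e i).image f ∈ H) :
    (r : ℝ) * H.card ≤ ((t : ℝ) - 1) * H.shadow.card := by
  classical
  obtain ⟨k', rfl⟩ : ∃ k', c = k' + 1 := ⟨c - 1, by omega⟩
  have hv0 : ∀ i, ∃ v, 0 < i → i < t → v ∈ e i ∧ (∀ j, j < i → v ∉ e j) ∧
      ∃ j, j < i ∧ (e i).erase v ⊆ e j := by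
    intro i
    by_cases h1 : 0 < i ∧ i < t
    · obtain ⟨v, hv1, hv2, j, hj, hj2⟩ := htight i h1.1 h1.2
      refine ⟨v, fun _ _ => ⟨hv1, hv2, j, hj, ?_⟩⟩
      rwa [Finset.sdiff_singleton_eq_erase] at hj2
    · exact ⟨0, fun a b => absurd ⟨a, b⟩ h1⟩
  choose v hv using hv0
  have htr : ∀ i j x, i < t → j < t → x ∈ e i → x ∈ e j → x ∉ TV (k' + 1) e → i = j := by
    intro i j x hi hj hxi hxj hx
    refine htrunk i j x hi hj hxi hxj ?_
    intro k hk hxk
    exact hx (mem_TV.mpr ⟨k, hk, hxk⟩)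
  -- the apexes
  have hy0 : ∀ k : Fin (k' + 1), ∃ y, e k = insert y S ∧ y ∉ S := by
    intro k
    have hk := k.2
    have h1 : (e k \ S).card = 1 := by
      rw [Finset.card_sdiff_of_subset (hS k hk), hcard k (by omega)]
      omega
    obtain ⟨y, hy⟩ := Finset.card_eq_one.mp h1
    refine ⟨y, ?_, ?_⟩
    · rw [Finset.insert_eq, ← hy]
      exact (Finset.sdiff_union_of_subset (hS k hk)).symm
    · intro h
      have : y ∈ e k \ S := by rw [hy]; simp
      exact (Finset.mem_sdiff.mp this).2 h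
  choose y hy1 hy2 using hy0
  have hylt : ∀ k l : Fin (k' + 1), k < l → y k ≠ y l := by
    intro k l hkl h
    have hl := l.2
    have hkl' : (k : ℕ) < l := hkl
    obtain ⟨h1, h2, h3⟩ := hv l (by omega) (by omega)
    have h4 : v l ∉ S := fun hh => h2 0 (by omega) (hS 0 (by omega) hh)
    have h5 : v l = y l := by
      rw [hy1 l, Finset.mem_insert] at h1
      rcases h1 with h1 | h1
      · exact h1
      · exact absurd h1 h4
    apply h2 k hkl'
    rw [h5, ← h, hy1 k]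
    exact Finset.mem_insert_self _ _
  have hyinj : Function.Injective y := by
    intro a b hab
    rcases lt_trichotomy a b with h | h | h
    · exact absurd hab (hylt a b h)
    · exact h
    · exact absurd hab.symm (hylt b a h)
  have hS0 : S ⊆ e 0 := hS 0 (by omega)
  have he0 : e 0 = insert (y 0) S := by
    have := hy1 0
    simpa using this
  have hm0 : y 0 ∈ e 0 := by rw [he0]; exact Finset.mem_insert_self _ _
  let m : ↥(e 0) := ⟨y 0, hm0⟩
  have hE0 : ∀ a ∈ e 0, a = m.1 ∨ a ∈ S := by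
    intro a ha
    rw [he0, Finset.mem_insert] at ha
    exact ha
  have hmS : m.1 ∉ S := hy2 0
  have hcardι : Fintype.card ↥(e 0) = r := by
    rw [Fintype.card_coe]
    exact hcard 0 (by omega)
  have hH' : ∀ h ∈ H, h.card = Fintype.card ↥(e 0) := by
    intro h hh; rw [hcardι]; exact hH h hh
  -- types of the leaves
  set L1 := (Finset.Ico (k' + 1) t).filter (fun i => ¬ (e i).erase (v i) = S) with hL1def
  have hL1 : L1 ⊆ Finset.Ico (k' + 1) t := Finset.filter_subset _ _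
  have hL0 : ∀ i ∈ (Finset.Ico (k' + 1) t) \ L1, (e i).erase (v i) = S := by
    intro i hi
    rw [Finset.mem_sdiff, hL1def, Finset.mem_filter] at hi
    by_contra hcon
    exact hi.2 ⟨hi.1, hcon⟩
  have htype : ∀ i, ∃ (k : Fin (k' + 1)) (z : ↥(e 0)), i ∈ L1 → z.1 ∈ S ∧
      (e i).erase (v i) = (insert (y k) S).erase z.1 := by
    intro i
    by_cases hi : i ∈ L1
    swap
    · exact ⟨0, m, fun h => absurd h hi⟩
    rw [hL1def, Finset.mem_filter, Finset.mem_Ico] at hi
    obtain ⟨⟨hci, hit⟩, hne⟩ := hi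
    obtain ⟨k, hk, hsub⟩ := anchor (by omega : 1 ≤ k' + 1) hv htr i hci hit
    have hFcard : ((e i).erase (v i)).card + 1 = r := by
      rw [Finset.card_erase_of_mem (hv i (by omega) hit).1, hcard i hit]
      omega
    have hk1 := hy1 ⟨k, hk⟩
    have hk2 := hy2 ⟨k, hk⟩
    simp only at hk1
    rw [hk1] at hsub
    have hcardk : (insert (y ⟨k, hk⟩) S).card = r := by
      rw [Finset.card_insert_of_notMem hk2, hScard]
    have hyF : y ⟨k, hk⟩ ∈ (e i).erase (v i) := by
      by_contra hcon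
      apply hne
      apply Finset.eq_of_subset_of_card_le
      · intro a ha
        rcases Finset.mem_insert.mp (hsub ha) with h | h
        · exact absurd (h ▸ ha) hcon
        · exact h
      · omega
    have hex : ∃ z ∈ insert (y ⟨k, hk⟩) S, z ∉ (e i).erase (v i) := by
      by_contra hcon
      push Not at hcon
      have := Finset.card_le_card (show insert (y ⟨k, hk⟩) S ⊆ (e i).erase (v i) from hcon)
      omega
    obtain ⟨z, hz1, hz2⟩ := hex
    have hzS : z ∈ S := by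
      rcases Finset.mem_insert.mp hz1 with h | h
      · exact absurd (h ▸ hyF) hz2
      · exact h
    refine ⟨⟨k, hk⟩, ⟨z, hS0 hzS⟩, fun _ => ⟨hzS, ?_⟩⟩
    apply Finset.eq_of_subset_of_card_le
    · intro a ha
      refine Finset.mem_erase.mpr ⟨?_, hsub ha⟩
      rintro rfl
      exact hz2 ha
    · rw [Finset.card_erase_of_mem hz1, hcardk]
      omega
  choose kk zz hkz using htype
  have hloc : ∀ f ∈ lab ↥(e 0) H,
      ((cls H f m).card : ℝ) - k' ≤ (((Finset.Ico (k' + 1) t) \ L1).card : ℝ) +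
      ∑ i ∈ L1, ∑ w ∈ cls H f m,
        1 / ((cls H (Function.update f m w) (zz i)).card : ℝ) := by
    intro f hf
    exact star_local hS0 hE0 hmS hyinj hy2 hy1 hv htr L1 hL1 hL0 zz kk
      (fun i hi => (hkz i hi).1) (fun i hi => (hkz i hi).2) hH' hno hf
  -- multiply and sum
  set P : ℝ := ∑ f ∈ lab ↥(e 0) H, (1 / ((cls H f m).card : ℝ)) with hP
  have hsum : ∑ f ∈ lab ↥(e 0) H, (1 / ((cls H f m).card : ℝ)) * (((cls H f m).card : ℝ) - k')
      ≤ ∑ f ∈ lab ↥(e 0) H, (1 / ((cls H f m).card : ℝ)) *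
        ((((Finset.Ico (k' + 1) t) \ L1).card : ℝ) +
          ∑ i ∈ L1, ∑ w ∈ cls H f m,
            1 / ((cls H (Function.update f m w) (zz i)).card : ℝ)) := by
    refine Finset.sum_le_sum fun f hf => ?_
    exact mul_le_mul_of_nonneg_left (hloc f hf) (one_div_nonneg.mpr (Nat.cast_nonneg _))
  have hL : ∑ f ∈ lab ↥(e 0) H, (1 / ((cls H f m).card : ℝ)) * (((cls H f m).card : ℝ) - k')
      = ((lab ↥(e 0) H).card : ℝ) - k' * P := by
    have h1 : ∀ f ∈ lab ↥(e 0) H,
        (1 / ((cls H f m).card : ℝ)) * (((cls H f m).card : ℝ) - k')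
          = 1 - k' * (1 / ((cls H f m).card : ℝ)) := by
      intro f hf
      have h2 : ((cls H f m).card : ℝ) ≠ 0 := by
        have := cls_card_pos hf m
        exact_mod_cast this.ne'
      field_simp
    rw [Finset.sum_congr rfl h1, Finset.sum_sub_distrib, ← Finset.mul_sum]
    simp [hP]
  have hR : ∑ f ∈ lab ↥(e 0) H, (1 / ((cls H f m).card : ℝ)) *
        ((((Finset.Ico (k' + 1) t) \ L1).card : ℝ) +
          ∑ i ∈ L1, ∑ w ∈ cls H f m,
            1 / ((cls H (Function.update f m w) (zz i)).card : ℝ))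
      = ((((Finset.Ico (k' + 1) t) \ L1).card : ℝ) + (L1.card : ℝ)) * P := by
    have h1 : ∀ f ∈ lab ↥(e 0) H, (1 / ((cls H f m).card : ℝ)) *
        ((((Finset.Ico (k' + 1) t) \ L1).card : ℝ) +
          ∑ i ∈ L1, ∑ w ∈ cls H f m,
            1 / ((cls H (Function.update f m w) (zz i)).card : ℝ))
        = (((Finset.Ico (k' + 1) t) \ L1).card : ℝ) * (1 / ((cls H f m).card : ℝ))
          + ∑ i ∈ L1, (1 / ((cls H f m).card : ℝ)) * ∑ w ∈ cls H f m,
            (fun g : ↥(e 0) → V => 1 / ((cls H g (zz i)).card : ℝ)) (Function.update f m w) := by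
      intro f _
      rw [mul_add, Finset.mul_sum, mul_comm (1 / ((cls H f m).card : ℝ))]
    rw [Finset.sum_congr rfl h1, Finset.sum_add_distrib, ← Finset.mul_sum, Finset.sum_comm]
    have h2 : ∀ i ∈ L1, ∑ f ∈ lab ↥(e 0) H, (1 / ((cls H f m).card : ℝ)) * ∑ w ∈ cls H f m,
            (fun g : ↥(e 0) → V => 1 / ((cls H g (zz i)).card : ℝ)) (Function.update f m w) = P := by
      intro i _
      rw [exchange m (fun g : ↥(e 0) → V => 1 / ((cls H g (zz i)).card : ℝ))]
      exact sum_deg_eq (fun n => 1 / (n : ℝ)) (zz i) m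
    rw [Finset.sum_congr rfl h2, Finset.sum_const, nsmul_eq_mul]
    ring
  rw [hL, hR] at hsum
  have hcnt : (((Finset.Ico (k' + 1) t) \ L1).card : ℝ) + (L1.card : ℝ) = (t : ℝ) - (k' + 1) := by
    have h1 : ((Finset.Ico (k' + 1) t) \ L1).card + L1.card = t - (k' + 1) := by
      rw [Finset.card_sdiff_add_card_eq_card hL1, Nat.card_Ico]
    have h2 : (((Finset.Ico (k' + 1) t) \ L1).card : ℝ) + (L1.card : ℝ)
        = ((t - (k' + 1) : ℕ) : ℝ) := by exact_mod_cast h1
    rw [h2, Nat.cast_sub hct]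
    push_cast
    ring
  rw [hcnt] at hsum
  have hlab := card_lab (ι := ↥(e 0)) hH'
  have hPr := sum_inv_deg (ι := ↥(e 0)) hH' m
  rw [hcardι] at hlab hPr
  rw [← hP] at hPr
  have hfact : (0 : ℝ) < (r.factorial : ℝ) := by exact_mod_cast Nat.factorial_pos r
  have hrpos : (0 : ℝ) ≤ (r : ℝ) := Nat.cast_nonneg _
  have hfin : ((lab ↥(e 0) H).card : ℝ) ≤ ((t : ℝ) - 1) * P := by linarith
  have h1 : (r : ℝ) * ((r.factorial : ℝ) * H.card) ≤ ((t : ℝ) - 1) * ((r.factorial : ℝ) * H.shadow.card) := by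
    rw [← hlab, ← hPr]
    calc (r : ℝ) * ((lab ↥(e 0) H).card : ℝ) ≤ (r : ℝ) * (((t : ℝ) - 1) * P) :=
          mul_le_mul_of_nonneg_left hfin hrpos
      _ = ((t : ℝ) - 1) * ((r : ℝ) * P) := by ring
  have h2 : (r.factorial : ℝ) * ((r : ℝ) * H.card) ≤ (r.factorial : ℝ) * (((t : ℝ) - 1) * H.shadow.card) := by
    linarith
  exact le_of_mul_le_mul_left h2 hfact

end Pool.Agent.TH528.Kalai
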