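import Pool.Agent.TH528.Kalai.Inj

set_option autoImplicit false

open Finset

namespace Pool.Agent.TH528.Kalai

variable {V : Type*} [Fintype V] [DecidableEq V]

/-- vertex set of the first `c` edges -/
def TV (c : ℕ) (e : ℕ → Finset ℕ) : Finset ℕ := (range c).biUnion e

theorem mem_TV {c : ℕ} {e : ℕ → Finset ℕ} {x : ℕ} : x ∈ TV c e ↔ ∃ k, k < c ∧ x ∈ e k := by
  simp [TV]

theorem anchor {t c : ℕ} (hc : 1 ≤ c) {e : ℕ → Finset ℕ} {v : ℕ → ℕ}
    (hv : ∀ i, 0 < i → i < t → v i ∈ e i ∧ (∀ j, j < i → v i ∉ e j) ∧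
      ∃ j, j < i ∧ (e i).erase (v i) ⊆ e j)
    (htr : ∀ i j x, i < t → j < t → x ∈ e i → x ∈ e j → x ∉ TV c e → i = j) :
    ∀ i, c ≤ i → i < t → ∃ k, k < c ∧ (e i).erase (v i) ⊆ e k := by
  intro i
  induction i using Nat.strong_induction_on with
  | _ i ih =>
    intro hci hit
    obtain ⟨hvi, hnew, j, hji, hsub⟩ := hv i (by omega) hit
    rcases Nat.lt_or_ge j c with hjc | hjc
    · exact ⟨j, hjc, hsub⟩
    · obtain ⟨k, hk, hk2⟩ := ih j hji hjc (by omega)
      obtain ⟨hvj, hnewj, -⟩ := hv j (by omega) (by omega)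
      refine ⟨k, hk, ?_⟩
      have hvj2 : v j ∉ TV c e := by
        intro h
        obtain ⟨k', hk', hk'2⟩ := mem_TV.mp h
        exact hnewj k' (by omega) hk'2
      intro x hx
      apply hk2
      refine Finset.mem_erase.mpr ⟨?_, hsub hx⟩
      rintro rfl
      have := htr i j (v j) hit (by omega) (Finset.mem_of_mem_erase hx) hvj hvj2
      omega

/-- available vertices for the leaf edge `i` -/
def avail (H : Finset (Finset V)) (c : ℕ) (e : ℕ → Finset ℕ) (v : ℕ → ℕ) (ψ : ℕ → V) (i : ℕ) :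
    Finset V :=
  univ.filter (fun w => insert w (((e i).erase (v i)).image ψ) ∈ H ∧ w ∉ (TV c e).image ψ)

theorem embed_fail {t c : ℕ} (hc : 1 ≤ c) {e : ℕ → Finset ℕ} {v : ℕ → ℕ}
    (hv : ∀ i, 0 < i → i < t → v i ∈ e i ∧ (∀ j, j < i → v i ∉ e j) ∧
      ∃ j, j < i ∧ (e i).erase (v i) ⊆ e j)
    (htr : ∀ i j x, i < t → j < t → x ∈ e i → x ∈ e j → x ∉ TV c e → i = j)
    {H : Finset (Finset V)} {ψ : ℕ → V}
    (hinj : Set.InjOn ψ {x : ℕ | x ∈ TV c e})
    (hE : ∀ k, k < c → (e k).image ψ ∈ H)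
    (hno : ¬ ∃ f : ℕ → V, Set.InjOn f {x : ℕ | ∃ i, i < t ∧ x ∈ e i} ∧
          ∀ i, i < t → (e i).image f ∈ H) :
    1 ≤ ∑ i ∈ Finset.Ico c t, 1 / (((avail H c e v ψ i).card : ℝ) + 1) := by
  classical
  have hanchor := anchor hc hv htr
  rw [← Finset.sum_coe_sort]
  apply hall_fail (fun i : ↥(Finset.Ico c t) => avail H c e v ψ i)
  rintro ⟨g, hginj, hg⟩
  apply hno
  -- leaf facts
  have hvleaf : ∀ i, c ≤ i → i < t → v i ∉ TV c e := by
    intro i hci hit h
    obtain ⟨k, hk, hk2⟩ := mem_TV.mp h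
    exact (hv i (by omega) hit).2.1 k (by omega) hk2
  have honly : ∀ i x, c ≤ i → i < t → x ∈ e i → x ∉ TV c e → x = v i := by
    intro i x hci hit hx hxT
    by_contra hne
    obtain ⟨k, hk, hk2⟩ := hanchor i hci hit
    exact hxT (mem_TV.mpr ⟨k, hk, hk2 (Finset.mem_erase.mpr ⟨hne, hx⟩)⟩)
  have hgspec : ∀ i (hi : i ∈ Finset.Ico c t),
      insert (g ⟨i, hi⟩) (((e i).erase (v i)).image ψ) ∈ H ∧ g ⟨i, hi⟩ ∉ (TV c e).image ψ := by
    intro i hi
    have := hg ⟨i, hi⟩
    simpa [avail] using this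
  -- the map
  let f : ℕ → V := fun x => if x ∈ TV c e then ψ x
    else if h : ∃ i, i ∈ Finset.Ico c t ∧ x ∈ e i then g ⟨h.choose, h.choose_spec.1⟩ else ψ x
  have hfT : ∀ x ∈ TV c e, f x = ψ x := by
    intro x hx
    simp only [f, if_pos hx]
  have hfL : ∀ i (hi : i ∈ Finset.Ico c t), f (v i) = g ⟨i, hi⟩ := by
    intro i hi
    have hi' := Finset.mem_Ico.mp hi
    have h1 := hvleaf i hi'.1 hi'.2
    have hex : ∃ j, j ∈ Finset.Ico c t ∧ v i ∈ e j := ⟨i, hi, (hv i (by omega) hi'.2).1⟩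
    have h2 : hex.choose = i := by
      have h3 := hex.choose_spec
      have h4 := Finset.mem_Ico.mp h3.1
      exact htr _ _ (v i) h4.2 hi'.2 h3.2 (hv i (by omega) hi'.2).1 h1
    simp only [f, if_neg h1, dif_pos hex]
    congr 1
    exact Subtype.ext h2
  refine ⟨f, ?_, ?_⟩
  · -- injectivity
    have hcases : ∀ x, (∃ i, i < t ∧ x ∈ e i) →
        x ∈ TV c e ∨ ∃ i, i ∈ Finset.Ico c t ∧ x = v i := by
      rintro x ⟨i, hit, hxi⟩
      by_cases hx : x ∈ TV c e
      · exact Or.inl hx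
      · right
        have hci : c ≤ i := by
          by_contra hlt
          exact hx (mem_TV.mpr ⟨i, by omega, hxi⟩)
        exact ⟨i, Finset.mem_Ico.mpr ⟨hci, hit⟩, honly i x hci hit hxi hx⟩
    intro x hx y hy hxy
    rcases hcases x hx with hxT | ⟨i, hi, rfl⟩ <;> rcases hcases y hy with hyT | ⟨j, hj, rfl⟩
    · rw [hfT x hxT, hfT y hyT] at hxy
      exact hinj hxT hyT hxy
    · exfalso
      rw [hfT x hxT, hfL j hj] at hxy
      exact (hgspec j hj).2 (by rw [← hxy]; exact Finset.mem_image_of_mem _ hxT)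
    · exfalso
      rw [hfT y hyT, hfL i hi] at hxy
      exact (hgspec i hi).2 (by rw [hxy]; exact Finset.mem_image_of_mem _ hyT)
    · rw [hfL i hi, hfL j hj] at hxy
      have := hginj hxy
      have h2 : i = j := congrArg Subtype.val this
      rw [h2]
  · intro i hit
    rcases Nat.lt_or_ge i c with hic | hci
    · have : (e i).image f = (e i).image ψ := by
        apply Finset.image_congr
        intro x hx
        exact hfT x (mem_TV.mpr ⟨i, hic, hx⟩)
      rw [this]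
      exact hE i hic
    · have hi : i ∈ Finset.Ico c t := Finset.mem_Ico.mpr ⟨hci, hit⟩
      obtain ⟨k, hk, hk2⟩ := hanchor i hci hit
      have hvi := (hv i (by omega) hit).1
      have h1 : (e i).image f = insert (g ⟨i, hi⟩) (((e i).erase (v i)).image ψ) := by
        conv_lhs => rw [← Finset.insert_erase hvi]
        rw [Finset.image_insert, hfL i hi]
        congr 1
        apply Finset.image_congr
        intro x hx
        exact hfT x (mem_TV.mpr ⟨k, hk, hk2 hx⟩)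
      rw [h1]
      exact (hgspec i hi).1

end Pool.Agent.TH528.Kalai
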